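import Mathlib
import Pool.Agent.TH785.DS.Sq
import Pool.Agent.TH785.DS.Zfc

/-!
# Consistently, there is a Delta-set whose square is not a Delta-set

Some notion of forcing `P` forces the combinatorial statement `DeltaFamily I` about a family of
points `x i` (`i : I`) of the Cantor set.  In ZFC this statement implies that there is a Delta-set
`X` of reals whose square is not a Delta-set.

A sentence of the forcing language is the set of the conditions which force it; a name for a
subset of a ground model set `Y` is a map sending `y` to a set of conditions, and `meets N` says
that the generic filter meets `N`.  `DeltaFamilyN P I` is the literal translation of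
`DeltaFamily I`.
-/

set_option autoImplicit false

namespace Pool.Agent.Results.MP_d5ec8b_lc.SquareOfDeltaSet

open Pool.Agent.TH785.DS

theorem result :
    (∃ (P : Type) (_ : Preorder P) (I : Type), Nonempty P ∧ ∀ p : P, p ∈ DeltaFamilyN P I) ∧
    ∀ I : Type, DeltaFamily I → ∃ X : Set ℝ, IsDelta X ∧ ¬ IsDelta (X × X) :=
  ⟨exists_forcing, fun _ h => exists_delta h⟩

end Pool.Agent.Results.MP_d5ec8b_lc.SquareOfDeltaSet
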